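import Pool.Agent.Helper81.MH.Goals

/-!
# PM: splitting by pieces gives the guessing principle (project MH)
-/

set_option autoImplicit false

namespace Pool.Agent.Helper40.MH

open Set Cardinal Filter
open Pool.Agent.Helper81.SB Pool.Agent.Helper81.MH

theorem ladder (γ : W) : ∃ c : ℕ → W, Monotone c ∧
    ((∃ β, β < γ) → (∀ β < γ, ∃ β' < γ, β < β') → (∀ i, c i < γ) ∧ ∀ β < γ, ∃ i, β < c i) := by
  by_cases h : ∃ β, β < γ
  · obtain ⟨e, he⟩ := (W_Iio γ).exists_eq_range h
    let c : ℕ → W := fun n => Nat.rec (e 0) (fun n x => max x (e (n + 1))) n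
    have hs : ∀ n, c (n + 1) = max (c n) (e (n + 1)) := fun n => rfl
    have h0 : c 0 = e 0 := rfl
    have hmem : ∀ i, e i < γ := by
      intro i
      have : e i ∈ Iio γ := by
        rw [he]
        exact mem_range_self i
      exact this
    have hle : ∀ i, e i ≤ c i := by
      intro i
      cases i with
      | zero => rw [h0]
      | succ n => rw [hs]; exact le_max_right _ _
    refine ⟨c, monotone_nat_of_le_succ (fun n => by rw [hs]; exact le_max_left _ _), ?_⟩
    intro _ hlim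
    constructor
    · intro i
      induction i with
      | zero => rw [h0]; exact hmem 0
      | succ n ih => rw [hs]; exact max_lt ih (hmem _)
    · intro β hβ
      obtain ⟨β', h1, h2⟩ := hlim β hβ
      have : β' ∈ range e := by
        rw [← he]
        exact h1
      obtain ⟨i, rfl⟩ := this
      exact ⟨i, h2.trans_le (hle i)⟩
  · exact ⟨fun _ => γ, monotone_const, fun h' => absurd h' h⟩

theorem goal_PM : Goal_PM := by
  rintro ⟨ℱ, hcard, hspl⟩
  choose c hmono hc using ladder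
  refine ⟨range (fun p : W × ℱ => ((c p.1, p.2.1) : (ℕ → W) × (ℕ → ℕ))), ?_, ?_, ?_⟩
  · refine mk_range_le.trans ?_
    rw [mk_prod, Cardinal.lift_id, Cardinal.lift_id, W_card]
    calc ℵ₁ * #ℱ ≤ ℵ₁ * ℵ₁ := mul_le_mul' le_rfl hcard
      _ = ℵ₁ := mul_eq_self (aleph0_le_aleph 1)
  · rintro p ⟨⟨γ, e⟩, rfl⟩
    exact hmono γ
  · intro F
    choose F' hF1 hF2 using exists_closed F
    obtain ⟨γ, hγ1, hγ2⟩ := exists_closed F' (Classical.arbitrary W)
    obtain ⟨hlt, hcof⟩ := hc γ ⟨_, hγ1⟩ (fun β hβ => ⟨F' β, hγ2 β hβ, hF1 β⟩)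
    have hI : {i | F (c γ i) ≤ c γ (i + 1)}.Infinite := by
      rw [Set.infinite_iff_frequently_cofinite, Nat.cofinite_eq_atTop, frequently_atTop]
      intro i₀
      have hex : ∃ i, F' (c γ i₀) ≤ c γ i := by
        obtain ⟨i, hi⟩ := hcof _ (hγ2 _ (hlt i₀))
        exact ⟨i, hi.le⟩
      classical
      obtain ⟨j, hj, hmin⟩ : ∃ j, F' (c γ i₀) ≤ c γ j ∧ ∀ i < j, ¬ F' (c γ i₀) ≤ c γ i :=
        ⟨Nat.find hex, Nat.find_spec hex, fun i hi => Nat.find_min hex hi⟩
      have hj0 : i₀ < j := by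
        by_contra hcon
        exact absurd (hj.trans (hmono γ (not_lt.1 hcon))) (not_le.2 (hF1 _))
      obtain ⟨i, rfl⟩ : ∃ i, j = i + 1 := ⟨j - 1, by omega⟩
      refine ⟨i, by omega, ?_⟩
      have h1 : c γ i < F' (c γ i₀) := not_le.1 (hmin i (Nat.lt_succ_self i))
      exact ((hF2 _ _ h1).trans_le hj).le
    obtain ⟨e, he, hinf⟩ := hspl _ hI
    refine ⟨(c γ, e), ⟨(γ, ⟨e, he⟩), rfl⟩, fun n => ?_⟩
    refine (hinf n).mono ?_
    rintro m ⟨h1, h2⟩
    exact ⟨h2, h1⟩

end Pool.Agent.Helper40.MH
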